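import Pool.Agent.K4H58.XK.A
import Pool.Agent.K4H58.XK.V

open Finset

namespace Pool.Agent.K4H58.XK

/-- the exact weight of a lower cherry, for general weights `f` -/
theorem cherry_weight {N k : ℕ} (f : ℕ → ℕ) (Y0 A A' B : Finset (Fin N)) (hY : Y0.card = k)
    (hA : A.card = k) (hA' : A'.card = k) (hB : B.card = k) (hAA' : Disjoint A A') (hAB : Disjoint A B)
    (hAB' : Disjoint A' B) (hA0 : (A ∩ Y0).Nonempty) (hB0 : (B ∩ Y0).Nonempty) :
    W k Y0 f (fun J σ => Arr Y0 J σ A B ∧ Arr Y0 J σ A' B) *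
      (3 * k - ((A ∪ A') ∩ Y0).card - (B ∩ Y0).card).choose (k - (B ∩ Y0).card) =
      N.factorial * ∑ j ∈ Icc ((A ∪ A') ∩ Y0).card (k - (B ∩ Y0).card),
        f j * (k.choose j *
          (k - ((A ∪ A') ∩ Y0).card - (B ∩ Y0).card).choose (j - ((A ∪ A') ∩ Y0).card)) := by
  have hPc : ((A ∪ A') ∩ Y0).card = (A ∩ Y0).card + (A' ∩ Y0).card := by
    rw [union_inter_distrib_right]
    exact card_union_of_disjoint (hAA'.mono inter_subset_left inter_subset_left)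
  have hA1 := hA0.card_pos
  have hB1 := hB0.card_pos
  have hUc : (A ∪ A').card = 2 * k := by
    rw [card_union_of_disjoint hAA', hA, hA']; omega
  have hUB : Disjoint (A ∪ A') B := by
    rw [disjoint_union_left]; exact ⟨hAB, hAB'⟩
  have e1 : ((A ∪ A') \ Y0).card + ((A ∪ A') ∩ Y0).card = 2 * k := by
    rw [card_sdiff_add_card_inter, hUc]
  have e2 : (B \ Y0).card + (B ∩ Y0).card = k := by
    rw [card_sdiff_add_card_inter, hB]
  have hM := perm_count ((A ∪ A') \ Y0) (B \ Y0)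
    (hUB.mono sdiff_subset sdiff_subset) rfl rfl
  have key : ∀ J ∈ Js Y0, ∀ σ : Equiv.Perm (Fin N), (Arr Y0 J σ A B ∧ Arr Y0 J σ A' B) ↔
      (((A ∪ A') ∩ Y0 ⊆ J ∧ Disjoint (B ∩ Y0) J) ∧
        ∀ a ∈ (A ∪ A') \ Y0, ∀ b ∈ B \ Y0, σ a < σ b) := by
    intro J hJ σ
    have hJY : J ⊆ Y0 := by
      unfold Js at hJ
      exact mem_powerset.1 (mem_filter.1 hJ).1
    have hd : Disjoint B J ↔ Disjoint (B ∩ Y0) J := by
      constructor
      · intro h; exact h.mono_left inter_subset_left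
      · intro h
        rw [disjoint_left] at h ⊢
        intro x hx hxJ
        exact h (mem_inter.2 ⟨hx, hJY hxJ⟩) hxJ
    unfold Arr
    rw [union_inter_distrib_right, union_subset_iff, union_sdiff_distrib, hd]
    constructor
    · rintro ⟨⟨a1, a2, a3⟩, b1, b2, b3⟩
      refine ⟨⟨⟨a1, b1⟩, a2⟩, fun a ha b hb => ?_⟩
      rcases mem_union.1 ha with h | h
      · exact a3 a h b hb
      · exact b3 a h b hb
    · rintro ⟨⟨⟨a1, b1⟩, a2⟩, h⟩
      exact ⟨⟨a1, a2, fun a ha b hb => h a (mem_union_left _ ha) b hb⟩, b1, a2,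
        fun a ha b hb => h a (mem_union_right _ ha) b hb⟩
  set M := (univ.filter (fun σ : Equiv.Perm (Fin N) =>
    ∀ a ∈ (A ∪ A') \ Y0, ∀ b ∈ B \ Y0, σ a < σ b)).card with hMdef
  have hW : W k Y0 (f) (fun J σ => Arr Y0 J σ A B ∧ Arr Y0 J σ A' B) =
      (∑ j ∈ Icc ((A ∪ A') ∩ Y0).card (k - (B ∩ Y0).card), (k.choose j * f j) *
        (k - ((A ∪ A') ∩ Y0).card - (B ∩ Y0).card).choose (j - ((A ∪ A') ∩ Y0).card)) * M := by
    rw [← cut_sum Y0 ((A ∪ A') ∩ Y0) (B ∩ Y0) hY inter_subset_right inter_subset_right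
      (hUB.mono inter_subset_left inter_subset_left)
      (by rw [← card_pos, hPc]; omega) hB0 (fun j => k.choose j * f j), sum_mul, sum_filter]
    unfold W
    refine sum_congr rfl fun J hJ => ?_
    by_cases hc : (A ∪ A') ∩ Y0 ⊆ J ∧ Disjoint (B ∩ Y0) J
    · rw [if_pos hc, hMdef, card_filter, mul_sum]
      refine sum_congr rfl fun σ _ => ?_
      have h1 := key J hJ σ
      by_cases h2 : ∀ a ∈ (A ∪ A') \ Y0, ∀ b ∈ B \ Y0, σ a < σ b
      · rw [if_pos (h1.2 ⟨hc, h2⟩), if_pos h2, mul_one]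
      · rw [if_neg (fun h3 => h2 (h1.1 h3).2), if_neg h2, mul_zero]
    · rw [if_neg hc]
      refine sum_eq_zero fun σ _ => ?_
      rw [if_neg (fun h3 => hc ((key J hJ σ).1 h3).1)]
  have hch : (((A ∪ A') \ Y0).card + (B \ Y0).card).choose ((A ∪ A') \ Y0).card =
      (3 * k - ((A ∪ A') ∩ Y0).card - (B ∩ Y0).card).choose (k - (B ∩ Y0).card) := by
    have e3 : ((A ∪ A') \ Y0).card + (B \ Y0).card =
      3 * k - ((A ∪ A') ∩ Y0).card - (B ∩ Y0).card := by omega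
    have e4 : k - (B ∩ Y0).card = (B \ Y0).card := by omega
    rw [← e3, e4, Nat.choose_symm_add]
  rw [hch] at hM
  rw [hW, ← hM]
  have hS : (∑ j ∈ Icc ((A ∪ A') ∩ Y0).card (k - (B ∩ Y0).card), (k.choose j * f j) *
        (k - ((A ∪ A') ∩ Y0).card - (B ∩ Y0).card).choose (j - ((A ∪ A') ∩ Y0).card)) =
      ∑ j ∈ Icc ((A ∪ A') ∩ Y0).card (k - (B ∩ Y0).card), f j * (k.choose j *
        (k - ((A ∪ A') ∩ Y0).card - (B ∩ Y0).card).choose (j - ((A ∪ A') ∩ Y0).card)) :=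
    sum_congr rfl fun j _ => by ring
  rw [hS]
  ring

/-- the exact weight of an upper cherry, for general weights `f` -/
theorem cherry_weight_up {N k : ℕ} (f : ℕ → ℕ) (Y0 A B B' : Finset (Fin N)) (hY : Y0.card = k)
    (hA : A.card = k) (hB : B.card = k) (hB' : B'.card = k) (hBB' : Disjoint B B') (hAB : Disjoint A B)
    (hAB' : Disjoint A B') (hA0 : (A ∩ Y0).Nonempty) (hB0 : (B ∩ Y0).Nonempty) :
    W k Y0 f (fun J σ => Arr Y0 J σ A B ∧ Arr Y0 J σ A B') *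
      (3 * k - (A ∩ Y0).card - ((B ∪ B') ∩ Y0).card).choose (k - (A ∩ Y0).card) =
      N.factorial * ∑ j ∈ Icc (A ∩ Y0).card (k - ((B ∪ B') ∩ Y0).card),
        f j * (k.choose j *
          (k - (A ∩ Y0).card - ((B ∪ B') ∩ Y0).card).choose (j - (A ∩ Y0).card)) := by
  have hPc : ((B ∪ B') ∩ Y0).card = (B ∩ Y0).card + (B' ∩ Y0).card := by
    rw [union_inter_distrib_right]
    exact card_union_of_disjoint (hBB'.mono inter_subset_left inter_subset_left)
  have hA1 := hA0.card_pos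
  have hB1 := hB0.card_pos
  have hUc : (B ∪ B').card = 2 * k := by
    rw [card_union_of_disjoint hBB', hB, hB']; omega
  have hUB : Disjoint A (B ∪ B') := by
    rw [disjoint_union_right]; exact ⟨hAB, hAB'⟩
  have e1 : ((B ∪ B') \ Y0).card + ((B ∪ B') ∩ Y0).card = 2 * k := by
    rw [card_sdiff_add_card_inter, hUc]
  have e2 : (A \ Y0).card + (A ∩ Y0).card = k := by
    rw [card_sdiff_add_card_inter, hA]
  have hM := perm_count (A \ Y0) ((B ∪ B') \ Y0)
    (hUB.mono sdiff_subset sdiff_subset) rfl rfl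
  have key : ∀ J ∈ Js Y0, ∀ σ : Equiv.Perm (Fin N), (Arr Y0 J σ A B ∧ Arr Y0 J σ A B') ↔
      ((A ∩ Y0 ⊆ J ∧ Disjoint ((B ∪ B') ∩ Y0) J) ∧
        ∀ a ∈ A \ Y0, ∀ b ∈ (B ∪ B') \ Y0, σ a < σ b) := by
    intro J hJ σ
    have hJY : J ⊆ Y0 := by
      unfold Js at hJ
      exact mem_powerset.1 (mem_filter.1 hJ).1
    have hd : ∀ B : Finset (Fin N), Disjoint B J ↔ Disjoint (B ∩ Y0) J := by
      intro B
      constructor
      · intro h; exact h.mono_left inter_subset_left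
      · intro h
        rw [disjoint_left] at h ⊢
        intro x hx hxJ
        exact h (mem_inter.2 ⟨hx, hJY hxJ⟩) hxJ
    unfold Arr
    rw [← hd (B ∪ B'), disjoint_union_left, union_sdiff_distrib]
    constructor
    · rintro ⟨⟨a1, a2, a3⟩, b1, b2, b3⟩
      refine ⟨⟨a1, a2, b2⟩, fun a ha b hb => ?_⟩
      rcases mem_union.1 hb with h | h
      · exact a3 a ha b h
      · exact b3 a ha b h
    · rintro ⟨⟨a1, a2, b2⟩, h⟩
      exact ⟨⟨a1, a2, fun a ha b hb => h a ha b (mem_union_left _ hb)⟩, a1, b2,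
        fun a ha b hb => h a ha b (mem_union_right _ hb)⟩
  set M := (univ.filter (fun σ : Equiv.Perm (Fin N) =>
    ∀ a ∈ A \ Y0, ∀ b ∈ (B ∪ B') \ Y0, σ a < σ b)).card with hMdef
  have hW : W k Y0 f (fun J σ => Arr Y0 J σ A B ∧ Arr Y0 J σ A B') =
      (∑ j ∈ Icc (A ∩ Y0).card (k - ((B ∪ B') ∩ Y0).card), (k.choose j * f j) *
        (k - (A ∩ Y0).card - ((B ∪ B') ∩ Y0).card).choose (j - (A ∩ Y0).card)) * M := by
    rw [← cut_sum Y0 (A ∩ Y0) ((B ∪ B') ∩ Y0) hY inter_subset_right inter_subset_right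
      (hUB.mono inter_subset_left inter_subset_left)
      hA0 (by rw [← card_pos, hPc]; omega) (fun j => k.choose j * f j), sum_mul, sum_filter]
    unfold W
    refine sum_congr rfl fun J hJ => ?_
    by_cases hc : A ∩ Y0 ⊆ J ∧ Disjoint ((B ∪ B') ∩ Y0) J
    · rw [if_pos hc, hMdef, card_filter, mul_sum]
      refine sum_congr rfl fun σ _ => ?_
      have h1 := key J hJ σ
      by_cases h2 : ∀ a ∈ A \ Y0, ∀ b ∈ (B ∪ B') \ Y0, σ a < σ b
      · rw [if_pos (h1.2 ⟨hc, h2⟩), if_pos h2, mul_one]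
      · rw [if_neg (fun h3 => h2 (h1.1 h3).2), if_neg h2, mul_zero]
    · rw [if_neg hc]
      refine sum_eq_zero fun σ _ => ?_
      rw [if_neg (fun h3 => hc ((key J hJ σ).1 h3).1)]
  have hch : ((A \ Y0).card + ((B ∪ B') \ Y0).card).choose (A \ Y0).card =
      (3 * k - (A ∩ Y0).card - ((B ∪ B') ∩ Y0).card).choose (k - (A ∩ Y0).card) := by
    have e3 : (A \ Y0).card + ((B ∪ B') \ Y0).card =
      3 * k - (A ∩ Y0).card - ((B ∪ B') ∩ Y0).card := by omega
    have e4 : k - (A ∩ Y0).card = (A \ Y0).card := by omega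
    rw [← e3, e4]
  rw [hch] at hM
  rw [hW, ← hM]
  have hS : (∑ j ∈ Icc (A ∩ Y0).card (k - ((B ∪ B') ∩ Y0).card), (k.choose j * f j) *
        (k - (A ∩ Y0).card - ((B ∪ B') ∩ Y0).card).choose (j - (A ∩ Y0).card)) =
      ∑ j ∈ Icc (A ∩ Y0).card (k - ((B ∪ B') ∩ Y0).card), f j * (k.choose j *
        (k - (A ∩ Y0).card - ((B ∪ B') ∩ Y0).card).choose (j - (A ∩ Y0).card)) :=
    sum_congr rfl fun j _ => by ring
  rw [hS]
  ring

/-- PIECE C1: the weight of a lower cherry (A.perm_count for (A ∪ A') \ Y0 and B \ Y0, V.cut_sum with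
P = (A ∪ A') ∩ Y0, Q = B ∩ Y0, Good k) -/
theorem lower_cherry {N k m : ℕ} (hG : Good k) (Y0 A A' B : Finset (Fin N)) (hY : Y0.card = k)
    (hA : A.card = k) (hA' : A'.card = k) (hB : B.card = k) (hAA' : Disjoint A A') (hAB : Disjoint A B)
    (hAB' : Disjoint A' B) (hA0 : (A ∩ Y0).Nonempty) (hA0' : (A' ∩ Y0).Nonempty)
    (hB0 : (B ∩ Y0).Nonempty) (hm : 3 ≤ m)
    (hs : m + (A ∩ Y0).card + (A' ∩ Y0).card + (B ∩ Y0).card ≤ k + 3) :
    m * W k Y0 (fun j => 1 + chL k j) (fun J σ => Arr Y0 J σ A B ∧ Arr Y0 J σ A' B) ≤ N.factorial := by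
  have hPc : ((A ∪ A') ∩ Y0).card = (A ∩ Y0).card + (A' ∩ Y0).card := by
    rw [union_inter_distrib_right]
    exact card_union_of_disjoint (hAA'.mono inter_subset_left inter_subset_left)
  have hA1 := hA0.card_pos
  have hA1' := hA0'.card_pos
  have hB1 := hB0.card_pos
  have hUc : (A ∪ A').card = 2 * k := by
    rw [card_union_of_disjoint hAA', hA, hA']; omega
  have hUB : Disjoint (A ∪ A') B := by
    rw [disjoint_union_left]; exact ⟨hAB, hAB'⟩
  have e1 : ((A ∪ A') \ Y0).card + ((A ∪ A') ∩ Y0).card = 2 * k := by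
    rw [card_sdiff_add_card_inter, hUc]
  have e2 : (B \ Y0).card + (B ∩ Y0).card = k := by
    rw [card_sdiff_add_card_inter, hB]
  have hM := perm_count ((A ∪ A') \ Y0) (B \ Y0)
    (hUB.mono sdiff_subset sdiff_subset) rfl rfl
  have key : ∀ J ∈ Js Y0, ∀ σ : Equiv.Perm (Fin N), (Arr Y0 J σ A B ∧ Arr Y0 J σ A' B) ↔
      (((A ∪ A') ∩ Y0 ⊆ J ∧ Disjoint (B ∩ Y0) J) ∧
        ∀ a ∈ (A ∪ A') \ Y0, ∀ b ∈ B \ Y0, σ a < σ b) := by
    intro J hJ σ
    have hJY : J ⊆ Y0 := by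
      unfold Js at hJ
      exact mem_powerset.1 (mem_filter.1 hJ).1
    have hd : Disjoint B J ↔ Disjoint (B ∩ Y0) J := by
      constructor
      · intro h; exact h.mono_left inter_subset_left
      · intro h
        rw [disjoint_left] at h ⊢
        intro x hx hxJ
        exact h (mem_inter.2 ⟨hx, hJY hxJ⟩) hxJ
    unfold Arr
    rw [union_inter_distrib_right, union_subset_iff, union_sdiff_distrib, hd]
    constructor
    · rintro ⟨⟨a1, a2, a3⟩, b1, b2, b3⟩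
      refine ⟨⟨⟨a1, b1⟩, a2⟩, fun a ha b hb => ?_⟩
      rcases mem_union.1 ha with h | h
      · exact a3 a h b hb
      · exact b3 a h b hb
    · rintro ⟨⟨⟨a1, b1⟩, a2⟩, h⟩
      exact ⟨⟨a1, a2, fun a ha b hb => h a (mem_union_left _ ha) b hb⟩, b1, a2,
        fun a ha b hb => h a (mem_union_right _ ha) b hb⟩
  set M := (univ.filter (fun σ : Equiv.Perm (Fin N) =>
    ∀ a ∈ (A ∪ A') \ Y0, ∀ b ∈ B \ Y0, σ a < σ b)).card with hMdef
  have hW : W k Y0 (fun j => 1 + chL k j) (fun J σ => Arr Y0 J σ A B ∧ Arr Y0 J σ A' B) =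
      (∑ j ∈ Icc ((A ∪ A') ∩ Y0).card (k - (B ∩ Y0).card), (k.choose j * (1 + chL k j)) *
        (k - ((A ∪ A') ∩ Y0).card - (B ∩ Y0).card).choose (j - ((A ∪ A') ∩ Y0).card)) * M := by
    rw [← cut_sum Y0 ((A ∪ A') ∩ Y0) (B ∩ Y0) hY inter_subset_right inter_subset_right
      (hUB.mono inter_subset_left inter_subset_left)
      (by rw [← card_pos, hPc]; omega) hB0 (fun j => k.choose j * (1 + chL k j)), sum_mul, sum_filter]
    unfold W
    refine sum_congr rfl fun J hJ => ?_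
    by_cases hc : (A ∪ A') ∩ Y0 ⊆ J ∧ Disjoint (B ∩ Y0) J
    · rw [if_pos hc, hMdef, card_filter, mul_sum]
      refine sum_congr rfl fun σ _ => ?_
      have h1 := key J hJ σ
      by_cases h2 : ∀ a ∈ (A ∪ A') \ Y0, ∀ b ∈ B \ Y0, σ a < σ b
      · rw [if_pos (h1.2 ⟨hc, h2⟩), if_pos h2, mul_one]
      · rw [if_neg (fun h3 => h2 (h1.1 h3).2), if_neg h2, mul_zero]
    · rw [if_neg hc]
      refine sum_eq_zero fun σ _ => ?_
      rw [if_neg (fun h3 => hc ((key J hJ σ).1 h3).1)]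
  have hg := hG ((A ∪ A') ∩ Y0).card (B ∩ Y0).card m (by omega) hB1 hm (by omega)
  have hch : (((A ∪ A') \ Y0).card + (B \ Y0).card).choose ((A ∪ A') \ Y0).card =
      (3 * k - ((A ∪ A') ∩ Y0).card - (B ∩ Y0).card).choose (k - (B ∩ Y0).card) := by
    have e3 : ((A ∪ A') \ Y0).card + (B \ Y0).card =
      3 * k - ((A ∪ A') ∩ Y0).card - (B ∩ Y0).card := by omega
    have e4 : k - (B ∩ Y0).card = (B \ Y0).card := by omega
    rw [← e3, e4, Nat.choose_symm_add]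
  rw [hch] at hM
  have hS : m * (∑ j ∈ Icc ((A ∪ A') ∩ Y0).card (k - (B ∩ Y0).card), (k.choose j * (1 + chL k j)) *
        (k - ((A ∪ A') ∩ Y0).card - (B ∩ Y0).card).choose (j - ((A ∪ A') ∩ Y0).card)) ≤
      (3 * k - ((A ∪ A') ∩ Y0).card - (B ∩ Y0).card).choose (k - (B ∩ Y0).card) := by
    refine le_trans (le_of_eq ?_) hg
    congr 1
    refine sum_congr rfl fun j _ => ?_
    ring
  rw [hW, ← hM, ← mul_assoc, mul_comm M]
  exact Nat.mul_le_mul_right _ hS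

end Pool.Agent.K4H58.XK
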