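import Pool.Agent.K4H72.Til.Spec

open Set

namespace Pool.Agent.K4H72.Til

namespace H62T10

theorem normsq (v : ℤ × ℤ) : ‖E v‖ ^ 2 = (v.1 : ℝ) ^ 2 + v.1 * v.2 + (v.2 : ℝ) ^ 2 := by
  rw [← Complex.normSq_eq_norm_sq, Complex.normSq_apply]
  have hre : (E v).re = (v.1 : ℝ) + v.2 / 2 := by
    simp [E, ζ]; ring
  have him : (E v).im = (v.2 : ℝ) * (Real.sqrt 3 / 2) := by
    simp [E, ζ]
  rw [hre, him]
  have h3 : Real.sqrt 3 * Real.sqrt 3 = 3 := Real.mul_self_sqrt (by norm_num)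
  calc ((v.1 : ℝ) + v.2 / 2) * ((v.1 : ℝ) + v.2 / 2)
      + (v.2 : ℝ) * (Real.sqrt 3 / 2) * ((v.2 : ℝ) * (Real.sqrt 3 / 2))
      = (v.1 : ℝ) ^ 2 + v.1 * v.2 + (v.2 : ℝ) ^ 2 / 4
        + (v.2 : ℝ) ^ 2 * (Real.sqrt 3 * Real.sqrt 3) / 4 := by ring
    _ = _ := by rw [h3]; ring

theorem one_le (u : ℤ × ℤ) (hu : u ≠ 0) : 1 ≤ ‖E u‖ := by
  have h : (1 : ℤ) ≤ u.1 ^ 2 + u.1 * u.2 + u.2 ^ 2 := by
    by_contra hlt
    push Not at hlt
    have hb : u.2 = 0 := by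
      by_contra hb
      have : 1 ≤ u.2 ^ 2 := by
        have : 0 < u.2 ^ 2 := by positivity
        omega
      nlinarith [sq_nonneg (2 * u.1 + u.2)]
    have ha : u.1 = 0 := by
      rw [hb] at hlt
      by_contra ha
      have : 0 < u.1 ^ 2 := by positivity
      nlinarith
    exact hu (Prod.ext ha hb)
  have h2 : (1 : ℝ) ≤ ‖E u‖ ^ 2 := by
    rw [normsq]
    exact_mod_cast h
  by_contra hlt
  push Not at hlt
  nlinarith [norm_nonneg (E u)]

theorem six_norm (e : ℤ × ℤ) (he : e ∈ six) : ‖E e‖ = 1 := by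
  have h : ‖E e‖ ^ 2 = 1 := by
    rw [normsq]
    simp only [six, Finset.mem_insert, Finset.mem_singleton] at he
    rcases he with rfl | rfl | rfl | rfl | rfl | rfl <;> norm_num
  have h0 := norm_nonneg (E e)
  nlinarith [sq_nonneg (‖E e‖ - 1), sq_nonneg (‖E e‖ + 1)]

theorem six_ne (e : ℤ × ℤ) (he : e ∈ six) : e ≠ 0 := by
  rintro rfl
  have := six_norm 0 he
  have h2 := normsq 0
  rw [this] at h2
  norm_num at h2

/-- lower and upper bound for distances -/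
theorem low (h : ℝ) (g : ℤ × ℤ → ℂ) (hg : Def1 h g) (v w : ℤ × ℤ) (hvw : v ≠ w) :
    19 / 20 * h ≤ ‖g v - g w‖ := by
  obtain ⟨hh, H⟩ := hg
  have h1 := H v w
  have h2 := one_le (v - w) (sub_ne_zero.mpr hvw)
  have h3 : ‖(h : ℂ) * E (v - w)‖ = h * ‖E (v - w)‖ := by
    rw [norm_mul, Complex.norm_real, Real.norm_of_nonneg hh.le]
  have h4 : ‖(h : ℂ) * E (v - w)‖ ≤ ‖g v - g w‖ + ‖g v - g w - (h : ℂ) * E (v - w)‖ := by
    have : (h : ℂ) * E (v - w) = (g v - g w) - (g v - g w - (h : ℂ) * E (v - w)) := by ring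
    calc _ = ‖(g v - g w) - (g v - g w - (h : ℂ) * E (v - w))‖ := by rw [← this]
      _ ≤ _ := norm_sub_le _ _
  nlinarith

theorem upp (h : ℝ) (g : ℤ × ℤ → ℂ) (hg : Def1 h g) (v e : ℤ × ℤ) (he : e ∈ six) :
    ‖g (v + e) - g v‖ ≤ 21 / 20 * h := by
  obtain ⟨hh, H⟩ := hg
  have h1 := H (v + e) v
  have h5 : v + e - v = e := by ring
  rw [h5, six_norm e he] at h1
  have h3 : ‖(h : ℂ) * E e‖ = h := by
    rw [norm_mul, Complex.norm_real, Real.norm_of_nonneg hh.le, six_norm e he, mul_one]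
  have h4 : ‖g (v + e) - g v‖ ≤ ‖(h : ℂ) * E e‖ + ‖g (v + e) - g v - (h : ℂ) * E e‖ := by
    have : g (v + e) - g v = (h : ℂ) * E e + (g (v + e) - g v - (h : ℂ) * E e) := by ring
    calc _ = ‖(h : ℂ) * E e + (g (v + e) - g v - (h : ℂ) * E e)‖ := by rw [← this]
      _ ≤ _ := norm_add_le _ _
  linarith

theorem normsq_sub (a b : ℂ) : ‖a - b‖ ^ 2 = (a.re - b.re) ^ 2 + (a.im - b.im) ^ 2 := by
  rw [← Complex.normSq_eq_norm_sq, Complex.normSq_apply]
  simp; ring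

/-- the linear functional `z ↦ ⟨z, d⟩` -/
noncomputable def lin (d : ℂ) : ℂ →L[ℝ] ℝ :=
  d.re • Complex.reCLM + d.im • Complex.imCLM

theorem lin_apply (d z : ℂ) : lin d z = d.re * z.re + d.im * z.im := by
  simp [lin]

theorem le_iff (a b z : ℂ) : ‖z - a‖ ≤ ‖z - b‖ ↔
    lin (b - a) z ≤ ((b.re ^ 2 + b.im ^ 2) - (a.re ^ 2 + a.im ^ 2)) / 2 := by
  rw [← sq_le_sq₀ (norm_nonneg _) (norm_nonneg _), normsq_sub, normsq_sub, lin_apply]
  simp only [Complex.sub_re, Complex.sub_im]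
  constructor <;> intro h <;> nlinarith

theorem eq_iff (a b z : ℂ) : ‖z - a‖ = ‖z - b‖ ↔
    lin (b - a) z = ((b.re ^ 2 + b.im ^ 2) - (a.re ^ 2 + a.im ^ 2)) / 2 := by
  rw [← sq_eq_sq₀ (norm_nonneg _) (norm_nonneg _), normsq_sub, normsq_sub, lin_apply]
  simp only [Complex.sub_re, Complex.sub_im]
  constructor <;> intro h <;> nlinarith

/-- the face is exposed -/
theorem exposed (A : Set ℂ) (a b : ℂ) (hA : ∀ z ∈ A, ‖z - a‖ ≤ ‖z - b‖) :
    IsExposed ℝ A {z | z ∈ A ∧ ‖z - a‖ = ‖z - b‖} := by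
  intro hne
  obtain ⟨y0, hy0A, hy0⟩ := hne
  refine ⟨lin (b - a), ?_⟩
  ext x
  simp only [mem_setOf_eq]
  constructor
  · rintro ⟨hx, hx2⟩
    refine ⟨hx, fun y hy => ?_⟩
    rw [(eq_iff a b x).1 hx2]
    exact (le_iff a b y).1 (hA y hy)
  · rintro ⟨hx, hx2⟩
    refine ⟨hx, ?_⟩
    rw [eq_iff]
    refine le_antisymm ((le_iff a b x).1 (hA x hx)) ?_
    rw [← (eq_iff a b y0).1 hy0]
    exact hx2 y0 hy0A

/-- points of the common face -/
theorem face_pt (h : ℝ) (g : ℤ × ℤ → ℂ) (hg : Def1 h g) (v e : ℤ × ℤ) (he : e ∈ six)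
    (t : ℝ) (ht : |t| ≤ 1 / 10) :
    let z := (g v + g (v + e)) / 2 + (t : ℂ) * Complex.I * (g (v + e) - g v)
    ‖z - g v‖ = ‖z - g (v + e)‖ ∧ ∀ w, ‖z - g v‖ ≤ ‖z - g w‖ := by
  intro z
  have hh : 0 < h := hg.1
  have hd := upp h g hg v e he
  have heq : ‖z - g v‖ = ‖z - g (v + e)‖ := by
    rw [← sq_eq_sq₀ (norm_nonneg _) (norm_nonneg _), normsq_sub, normsq_sub]
    simp only [z, Complex.add_re, Complex.add_im, Complex.mul_re, Complex.mul_im, Complex.sub_re,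
      Complex.sub_im, Complex.I_re, Complex.I_im, Complex.ofReal_re, Complex.ofReal_im,
      Complex.div_ofNat_re, Complex.div_ofNat_im]
    ring
  refine ⟨heq, fun w => ?_⟩
  by_cases hw1 : w = v
  · rw [hw1]
  by_cases hw2 : w = v + e
  · rw [hw2]; exact heq.le
  have hI : ‖(t : ℂ) * Complex.I * (g (v + e) - g v)‖ ≤ 1 / 10 * (21 / 20 * h) := by
    rw [norm_mul, norm_mul, Complex.norm_I, mul_one, Complex.norm_real, Real.norm_eq_abs]
    exact mul_le_mul ht hd (norm_nonneg _) (by norm_num)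
  have h1 : ‖z - g v‖ ≤ 63 / 100 * h := by
    have e1 : z - g v = (g (v + e) - g v) / 2 + (t : ℂ) * Complex.I * (g (v + e) - g v) := by
      simp only [z]; ring
    rw [e1]
    refine (norm_add_le _ _).trans ?_
    have e2 : ‖(g (v + e) - g v) / 2‖ = ‖g (v + e) - g v‖ / 2 := by
      rw [norm_div]; norm_num
    rw [e2]
    linarith
  have h2 : 79 / 100 * h ≤ ‖(g v + g (v + e)) / 2 - g w‖ := by
    have a1 := low h g hg v w (Ne.symm hw1)
    have a2 := low h g hg (v + e) w (Ne.symm hw2)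
    have p : ‖(g v + g (v + e)) / 2 - g w‖ ^ 2
        = (‖g v - g w‖ ^ 2 + ‖g (v + e) - g w‖ ^ 2) / 2 - ‖g (v + e) - g v‖ ^ 2 / 4 := by
      rw [normsq_sub, normsq_sub, normsq_sub, normsq_sub]
      simp only [Complex.add_re, Complex.add_im, Complex.div_ofNat_re, Complex.div_ofNat_im]
      ring
    have b1 : (19 / 20 * h) ^ 2 ≤ ‖g v - g w‖ ^ 2 := pow_le_pow_left₀ (by positivity) a1 2
    have b2 : (19 / 20 * h) ^ 2 ≤ ‖g (v + e) - g w‖ ^ 2 := pow_le_pow_left₀ (by positivity) a2 2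
    have b3 : ‖g (v + e) - g v‖ ^ 2 ≤ (21 / 20 * h) ^ 2 := pow_le_pow_left₀ (norm_nonneg _) hd 2
    have b4 : (79 / 100 * h) ^ 2 ≤ ‖(g v + g (v + e)) / 2 - g w‖ ^ 2 := by
      rw [p]; nlinarith [sq_nonneg h]
    exact le_of_sq_le_sq b4 (norm_nonneg _)
  have h3 : ‖(g v + g (v + e)) / 2 - g w‖ ≤ ‖z - g w‖
      + ‖(t : ℂ) * Complex.I * (g (v + e) - g v)‖ := by
    have e3 : (g v + g (v + e)) / 2 - g w
        = (z - g w) - (t : ℂ) * Complex.I * (g (v + e) - g v) := by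
      simp only [z]; ring
    rw [e3]
    exact norm_sub_le _ _
  linarith

end H62T10

open H62T10 in
theorem edge (h : ℝ) (g : ℤ × ℤ → ℂ) (hg : Def1 h g) (v e : ℤ × ℤ) (he : e ∈ six) :
    ShareEdge (cell g v) (cell g (v + e)) := by
  have hh : 0 < h := hg.1
  have hne : e ≠ 0 := six_ne e he
  have hne2 : v + e ≠ v := by
    intro hc
    exact hne (by simpa using hc)
  have hpos : 0 < ‖g (v + e) - g v‖ := by
    have := low h g hg (v + e) v hne2
    have : 0 < 19 / 20 * h := by positivity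
    linarith
  have hgne : g (v + e) ≠ g v := by
    intro hc
    rw [hc, sub_self, norm_zero] at hpos
    exact lt_irrefl _ hpos
  have hF : {z | z ∈ cell g v ∧ ‖z - g v‖ = ‖z - g (v + e)‖}
      = {z | z ∈ cell g (v + e) ∧ ‖z - g (v + e)‖ = ‖z - g v‖} := by
    ext z
    simp only [cell, mem_setOf_eq]
    constructor
    · rintro ⟨h1, h2⟩
      exact ⟨fun w => by rw [← h2]; exact h1 w, h2.symm⟩
    · rintro ⟨h1, h2⟩
      exact ⟨fun w => by rw [← h2]; exact h1 w, h2.symm⟩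
  refine ⟨{z | z ∈ cell g v ∧ ‖z - g v‖ = ‖z - g (v + e)‖}, ?_, ?_, ?_, ?_, ?_⟩
  · exact exposed _ _ _ (fun z hz => hz (v + e))
  · rw [hF]
    exact exposed _ _ _ (fun z hz => hz v)
  · have p0 := face_pt h g hg v e he 0 (by norm_num)
    have p1 := face_pt h g hg v e he (1 / 10) (by rw [abs_of_pos] <;> norm_num)
    refine ⟨_, ⟨p0.2, p0.1⟩, _, ⟨p1.2, p1.1⟩, ?_⟩
    intro hc
    have h0 : (((1 / 10 : ℝ)) : ℂ) * Complex.I * (g (v + e) - g v) = 0 := by
      have := add_left_cancel hc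
      rw [← this]
      simp
    have h1 : g (v + e) - g v ≠ 0 := sub_ne_zero.mpr hgne
    have h2 : (((1 / 10 : ℝ)) : ℂ) * Complex.I ≠ 0 := by
      refine mul_ne_zero ?_ Complex.I_ne_zero
      norm_num
    exact (mul_ne_zero h2 h1) h0
  · intro hc
    have : g v ∈ cell g v := by
      intro w
      rw [sub_self, norm_zero]
      exact norm_nonneg _
    rw [← hc] at this
    have h2 := this.2
    rw [sub_self, norm_zero, norm_sub_rev] at h2
    exact hpos.ne h2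
  · intro hc
    have : g (v + e) ∈ cell g (v + e) := by
      intro w
      rw [sub_self, norm_zero]
      exact norm_nonneg _
    rw [← hc] at this
    have h2 := this.2
    rw [sub_self, norm_zero] at h2
    exact hpos.ne' h2

end Pool.Agent.K4H72.Til
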