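import Pool.Agent.K4H58.XK.Spec

open Finset

namespace Pool.Agent.K4H58.XK

theorem half_top {ι : Type} [DecidableEq ι] (R : ι → ι → Prop) [DecidableRel R]
    (h2 : ∀ i j i' j', R i j → R i' j' → R i j' ∨ R i' j) (C : Finset ι) (hC : C.Nonempty) :
    ∃ i0 ∈ C, ∀ i ∈ C, ∀ j ∈ C, R i j → R i0 j := by
  obtain ⟨i0, hi0, hmax⟩ := exists_max_image C (fun i => (C.filter (fun j => R i j)).card) hC
  refine ⟨i0, hi0, fun i hi j hj hij => ?_⟩
  by_contra hcon
  have hss : C.filter (fun j => R i0 j) ⊂ C.filter (fun j => R i j) := by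
    rw [ssubset_iff_of_subset]
    · exact ⟨j, mem_filter.2 ⟨hj, hij⟩, fun h => hcon (mem_filter.1 h).2⟩
    · intro j' hj'
      have h3 := mem_filter.1 hj'
      rcases h2 i0 j' i j h3.2 hij with h | h
      · exact absurd h hcon
      · exact mem_filter.2 ⟨h3.1, h⟩
  exact absurd (hmax i hi) (not_le.2 (card_lt_card hss))

/-- the out-neighbours of `i0` in `C` give upper cherries -/
theorem upper_count {ι α : Type} [Fintype ι] [DecidableEq ι] [DecidableEq α]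
    (X : ι → Finset α) (R : ι → ι → Prop) [DecidableRel R] (x : α) (i0 : ι) (hx : x ∈ X i0) :
    2 * (univ.filter (fun j => R i0 j ∧ x ∈ X j)).card ≤ 2 +
      (univ.filter (fun p : ι × ι × ι => p.2.1 ≠ p.2.2 ∧ R p.1 p.2.1 ∧ R p.1 p.2.2 ∧
        x ∈ X p.1 ∧ x ∈ X p.2.1 ∧ x ∈ X p.2.2)).card := by
  set U := univ.filter (fun j => R i0 j ∧ x ∈ X j) with hU
  have h1 : U.offDiag.card ≤ (univ.filter (fun p : ι × ι × ι => p.2.1 ≠ p.2.2 ∧ R p.1 p.2.1 ∧
      R p.1 p.2.2 ∧ x ∈ X p.1 ∧ x ∈ X p.2.1 ∧ x ∈ X p.2.2)).card := by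
    refine card_le_card_of_injOn (fun p => (i0, p.1, p.2)) ?_ ?_
    · intro p hp
      have hp' := mem_offDiag.1 (mem_coe.1 hp)
      have a := (mem_filter.1 hp'.1).2
      have b := (mem_filter.1 hp'.2.1).2
      exact mem_coe.2 (mem_filter.2 ⟨mem_univ _, hp'.2.2, a.1, b.1, hx, a.2, b.2⟩)
    · intro p _ q _ h
      simp only [Prod.mk.injEq, true_and] at h
      exact Prod.ext h.1 h.2
  rw [offDiag_card] at h1
  refine le_trans ?_ (Nat.add_le_add_left h1 2)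
  rcases Nat.lt_or_ge U.card 2 with h | h
  · omega
  · obtain ⟨c, hc⟩ := Nat.exists_eq_add_of_le h
    rw [hc]
    have : (2 + c) * (2 + c) = (2 + c) + (2 + 3 * c + c * c) := by ring
    rw [this, Nat.add_sub_cancel_left]
    have := Nat.zero_le (c * c)
    omega

theorem point_x {ι α : Type} [Fintype ι] [DecidableEq ι] [DecidableEq α]
    (X : ι → Finset α) (R : ι → ι → Prop) [DecidableRel R]
    (h2 : ∀ i j i' j', R i j → R i' j' → R i j' ∨ R i' j) (x : α) :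
    2 * (univ.filter (fun p : ι × ι => R p.1 p.2 ∧ x ∈ X p.1 ∧ x ∈ X p.2)).card ≤
      (if ∃ j i, R i j ∧ x ∈ X j then 2 else 0) +
      ((univ.filter (fun p : ι × ι × ι => p.1 ≠ p.2.1 ∧ R p.1 p.2.2 ∧ R p.2.1 p.2.2 ∧
        x ∈ X p.1 ∧ x ∈ X p.2.1 ∧ x ∈ X p.2.2)).card +
      (univ.filter (fun p : ι × ι × ι => p.2.1 ≠ p.2.2 ∧ R p.1 p.2.1 ∧ R p.1 p.2.2 ∧
        x ∈ X p.1 ∧ x ∈ X p.2.1 ∧ x ∈ X p.2.2)).card) := by
  set E := univ.filter (fun p : ι × ι => R p.1 p.2 ∧ x ∈ X p.1 ∧ x ∈ X p.2) with hE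
  rcases E.eq_empty_or_nonempty with h0 | ⟨p0, hp0⟩
  · rw [h0, card_empty]; omega
  have hp0' := (mem_filter.1 hp0).2
  rw [if_pos ⟨p0.2, p0.1, hp0'.1, hp0'.2.2⟩]
  obtain ⟨i0, hi0, htop⟩ := half_top R h2 (univ.filter (fun i => x ∈ X i))
    ⟨p0.1, mem_filter.2 ⟨mem_univ _, hp0'.2.1⟩⟩
  have hx0 : x ∈ X i0 := (mem_filter.1 hi0).2
  have htop' : ∀ i j, x ∈ X i → x ∈ X j → R i j → R i0 j := fun i j hi hj h =>
    htop i (mem_filter.2 ⟨mem_univ _, hi⟩) j (mem_filter.2 ⟨mem_univ _, hj⟩) h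
  have hup := upper_count X R x i0 hx0
  -- the pairs with first member `i0`
  have hE1 : (E.filter (fun p => p.1 = i0)).card ≤
      (univ.filter (fun j => R i0 j ∧ x ∈ X j)).card := by
    refine card_le_card_of_injOn (fun p => p.2) ?_ ?_
    · intro p hp
      have hp' := mem_filter.1 (mem_coe.1 hp)
      have hp'' := (mem_filter.1 hp'.1).2
      refine mem_coe.2 (mem_filter.2 ⟨mem_univ _, ?_, hp''.2.2⟩)
      rw [← hp'.2]; exact hp''.1
    · intro p hp q hq h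
      have hp' := mem_filter.1 (mem_coe.1 hp)
      have hq' := mem_filter.1 (mem_coe.1 hq)
      exact Prod.ext (hp'.2.trans hq'.2.symm) h
  -- the others
  set Lc := univ.filter (fun p : ι × ι × ι => p.1 ≠ p.2.1 ∧ R p.1 p.2.2 ∧ R p.2.1 p.2.2 ∧
        x ∈ X p.1 ∧ x ∈ X p.2.1 ∧ x ∈ X p.2.2) with hLc
  set E2 := E.filter (fun p => ¬ p.1 = i0) with hE2
  have hA : E2.card ≤ (Lc.filter (fun p => p.1 = i0)).card := by
    refine card_le_card_of_injOn (fun p => (i0, p.1, p.2)) ?_ ?_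
    · intro p hp
      have hp' := mem_filter.1 (mem_coe.1 hp)
      have hp'' := (mem_filter.1 hp'.1).2
      refine mem_coe.2 (mem_filter.2 ⟨mem_filter.2 ⟨mem_univ _, fun h => hp'.2 h.symm,
        htop' _ _ hp''.2.1 hp''.2.2 hp''.1, hp''.1, hx0, hp''.2.1, hp''.2.2⟩, rfl⟩)
    · intro p _ q _ h
      simp only [Prod.mk.injEq, true_and] at h
      exact Prod.ext h.1 h.2
  have hB : E2.card ≤ (Lc.filter (fun p => ¬ p.1 = i0)).card := by
    refine card_le_card_of_injOn (fun p => (p.1, i0, p.2)) ?_ ?_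
    · intro p hp
      have hp' := mem_filter.1 (mem_coe.1 hp)
      have hp'' := (mem_filter.1 hp'.1).2
      refine mem_coe.2 (mem_filter.2 ⟨mem_filter.2 ⟨mem_univ _, hp'.2, hp''.1,
        htop' _ _ hp''.2.1 hp''.2.2 hp''.1, hp''.2.1, hx0, hp''.2.2⟩, hp'.2⟩)
    · intro p _ q _ h
      simp only [Prod.mk.injEq, true_and] at h
      exact Prod.ext h.1 h.2
  have hs1 := card_filter_add_card_filter_not (s := E) (fun p => p.1 = i0)
  have hs2 := card_filter_add_card_filter_not (s := Lc) (fun p => p.1 = i0)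
  have hs3 : E2.card = (E.filter (fun p => ¬ p.1 = i0)).card := rfl
  omega

end Pool.Agent.K4H58.XK
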