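import Pool.Agent.K4H62.XKD0

open Finset

namespace Pool.Agent.K4H58.XK

/-- the pointwise inequality with the constant `k` -/
theorem pointwiseP {ι α : Type} [Fintype ι] [DecidableEq ι] [Fintype α] [DecidableEq α] {k : ℕ}
    (hk : 1 ≤ k)
    (X : ι → Finset α) (hX : ∀ i, (X i).card = k) (R : ι → ι → Prop) [DecidableRel R]
    (h1 : ∀ i j, R i j → ¬ Disjoint (X i) (X j))
    (h2 : ∀ i j i' j', R i j → R i' j' → R i j' ∨ R i' j) :
    2 * ∑ x : α, (univ.filter (fun p : ι × ι => R p.1 p.2 ∧ x ∈ X p.1 ∧ x ∈ X p.2)).card ≤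
      2 * k ^ 2 +
      ∑ x : α, (univ.filter (fun p : ι × ι × ι => p.1 ≠ p.2.1 ∧ R p.1 p.2.2 ∧ R p.2.1 p.2.2 ∧
        x ∈ X p.1 ∧ x ∈ X p.2.1 ∧ x ∈ X p.2.2)).card +
      k * ∑ x : α, (univ.filter (fun p : ι × ι × ι => p.2.1 ≠ p.2.2 ∧ R p.1 p.2.1 ∧ R p.1 p.2.2 ∧
        x ∈ X p.1 ∧ x ∈ X p.2.1 ∧ x ∈ X p.2.2)).card := by
  classical
  by_cases hne : ∃ i j, R i j
  swap
  · have h0 : ∑ x : α, (univ.filter (fun p : ι × ι => R p.1 p.2 ∧ x ∈ X p.1 ∧ x ∈ X p.2)).card = 0 := by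
      refine sum_eq_zero fun x _ => ?_
      rw [card_eq_zero, filter_eq_empty_iff]
      intro p _ hp
      exact hne ⟨p.1, p.2, hp.1⟩
    rw [h0]; omega
  obtain ⟨i1, j1, hij1⟩ := hne
  set lc : α → ℕ := fun x => (univ.filter (fun p : ι × ι × ι => p.1 ≠ p.2.1 ∧ R p.1 p.2.2 ∧
    R p.2.1 p.2.2 ∧ x ∈ X p.1 ∧ x ∈ X p.2.1 ∧ x ∈ X p.2.2)).card with hlc
  set uc : α → ℕ := fun x => (univ.filter (fun p : ι × ι × ι => p.2.1 ≠ p.2.2 ∧ R p.1 p.2.1 ∧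
    R p.1 p.2.2 ∧ x ∈ X p.1 ∧ x ∈ X p.2.1 ∧ x ∈ X p.2.2)).card with huc
  obtain ⟨i0, -, htop⟩ := half_top R h2 univ ⟨i1, mem_univ _⟩
  set U : Finset ι := univ.filter (fun j => R i0 j) with hU
  set b : α → ℕ := fun x => (univ.filter (fun j => R i0 j ∧ x ∈ X j)).card with hb
  have hs : 2 * ∑ x : α, (univ.filter (fun p : ι × ι => R p.1 p.2 ∧ x ∈ X p.1 ∧ x ∈ X p.2)).card ≤
      ∑ x : α, ((if ∃ j i, R i j ∧ x ∈ X j then 2 else 0) + (lc x + uc x)) := by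
    rw [mul_sum]
    exact sum_le_sum fun x _ => point_x X R h2 x
  rw [sum_add_distrib, sum_add_distrib] at hs
  -- double counting
  have hdc : ∑ x : α, b x = k * U.card := by
    have e1 : ∀ x, b x = ∑ j ∈ U, if x ∈ X j then 1 else 0 := by
      intro x
      rw [hb, hU]
      simp only
      rw [card_filter, sum_filter]
      refine sum_congr rfl fun j _ => ?_
      by_cases h : R i0 j <;> by_cases h' : x ∈ X j <;> simp [h, h']
    rw [sum_congr rfl (fun x _ => e1 x), sum_comm]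
    have e2 : ∀ j ∈ U, (∑ x : α, if x ∈ X j then 1 else 0) = k := by
      intro j _
      rw [← hX j, card_eq_sum_ones, sum_ite_mem, univ_inter]
    rw [sum_congr rfl e2, sum_const, smul_eq_mul, mul_comm]
  have hind : ∀ x : α, (if ∃ j i, R i j ∧ x ∈ X j then 2 else 0) + 2 * (b x - 1) ≤ 2 * b x := by
    intro x
    split_ifs with h
    · obtain ⟨j, i, hij, hxj⟩ := h
      have hb1 : 0 < b x := card_pos.2 ⟨j, mem_filter.2 ⟨mem_univ _,
        htop i (mem_univ _) j (mem_univ _) hij, hxj⟩⟩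
      omega
    · omega
  have hD : ∑ x : α, (if ∃ j i, R i j ∧ x ∈ X j then 2 else 0) + 2 * ∑ x : α, (b x - 1) ≤
      2 * (k * U.card) := by
    rw [← hdc, mul_sum, mul_sum, ← sum_add_distrib]
    exact sum_le_sum fun x _ => hind x
  have hE : ∑ x ∈ X i0, (b x - 1) ≤ ∑ x : α, (b x - 1) := sum_le_sum_of_subset (subset_univ _)
  have hle : U.card ≤ k + ∑ x ∈ X i0, (b x - 1) := by
    have h3 : U.card ≤ ∑ x ∈ X i0, b x := by
      refine le_trans ?_ (card_biUnion_le (s := X i0)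
        (t := fun x => univ.filter (fun j => R i0 j ∧ x ∈ X j)))
      refine card_le_card fun j hj => ?_
      have hij := (mem_filter.1 hj).2
      obtain ⟨x, hx1, hx2⟩ := not_disjoint_iff.1 (h1 i0 j hij)
      exact mem_biUnion.2 ⟨x, hx1, mem_filter.2 ⟨mem_univ _, hij, hx2⟩⟩
    refine h3.trans ?_
    calc ∑ x ∈ X i0, b x ≤ ∑ x ∈ X i0, (1 + (b x - 1)) := sum_le_sum fun x _ => by omega
      _ = k + ∑ x ∈ X i0, (b x - 1) := by
          rw [sum_add_distrib, sum_const, hX, smul_eq_mul, mul_one]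
  have hcu : 2 * ∑ x ∈ X i0, (b x - 1) ≤ ∑ x : α, uc x := by
    rw [mul_sum]
    refine le_trans (sum_le_sum (g := uc) fun x hx => ?_) (sum_le_sum_of_subset (subset_univ _))
    have := upper_count X R x i0 hx
    change 2 * b x ≤ 2 + uc x at this
    omega
  set E := ∑ x ∈ X i0, (b x - 1) with hEdef
  obtain ⟨c, rfl⟩ : ∃ c, k = c + 1 := ⟨k - 1, by omega⟩
  have m1 : (c + 1) * U.card ≤ (c + 1) * (c + 1 + E) := Nat.mul_le_mul_left _ hle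
  have m2 : c * (2 * E) ≤ c * ∑ x : α, uc x := Nat.mul_le_mul_left _ hcu
  have e1 : univ.sum lc = ∑ x, lc x := rfl
  have e2 : univ.sum uc = ∑ x, uc x := rfl
  have m3 : (c + 1) * ∑ x : α, uc x = c * ∑ x : α, uc x + ∑ x : α, uc x := by ring
  have m4 : (c + 1) * (c + 1 + E) = (c + 1) ^ 2 + c * E + E := by ring
  have m5 : c * (2 * E) = 2 * (c * E) := by ring
  rw [m3]
  omega

/-- the mirror image of `pointwiseP` -/
theorem pointwiseP' {ι α : Type} [Fintype ι] [DecidableEq ι] [Fintype α] [DecidableEq α] {k : ℕ}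
    (hk : 1 ≤ k)
    (X : ι → Finset α) (hX : ∀ i, (X i).card = k) (R : ι → ι → Prop) [DecidableRel R]
    (h1 : ∀ i j, R i j → ¬ Disjoint (X i) (X j))
    (h2 : ∀ i j i' j', R i j → R i' j' → R i j' ∨ R i' j) :
    2 * ∑ x : α, (univ.filter (fun p : ι × ι => R p.1 p.2 ∧ x ∈ X p.1 ∧ x ∈ X p.2)).card ≤
      2 * k ^ 2 +
      k * ∑ x : α, (univ.filter (fun p : ι × ι × ι => p.1 ≠ p.2.1 ∧ R p.1 p.2.2 ∧ R p.2.1 p.2.2 ∧
        x ∈ X p.1 ∧ x ∈ X p.2.1 ∧ x ∈ X p.2.2)).card +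
      ∑ x : α, (univ.filter (fun p : ι × ι × ι => p.2.1 ≠ p.2.2 ∧ R p.1 p.2.1 ∧ R p.1 p.2.2 ∧
        x ∈ X p.1 ∧ x ∈ X p.2.1 ∧ x ∈ X p.2.2)).card := by
  have h := pointwiseP hk X hX (fun i j => R j i) (fun i j h hd => h1 j i h hd.symm)
    (fun i j i' j' h h' => (h2 j i j' i' h h').symm)
  have a1 : ∀ x : α, (univ.filter (fun p : ι × ι => R p.2 p.1 ∧ x ∈ X p.1 ∧ x ∈ X p.2)).card =
      (univ.filter (fun p : ι × ι => R p.1 p.2 ∧ x ∈ X p.1 ∧ x ∈ X p.2)).card := by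
    intro x
    refine card_nbij' (fun p => (p.2, p.1)) (fun p => (p.2, p.1)) ?_ ?_ ?_ ?_
    · intro p hp
      have := (mem_filter.1 (mem_coe.1 hp)).2
      exact mem_coe.2 (mem_filter.2 ⟨mem_univ _, this.1, this.2.2, this.2.1⟩)
    · intro p hp
      have := (mem_filter.1 (mem_coe.1 hp)).2
      exact mem_coe.2 (mem_filter.2 ⟨mem_univ _, this.1, this.2.2, this.2.1⟩)
    · intro p _; rfl
    · intro p _; rfl
  have a2 : ∀ x : α, (univ.filter (fun p : ι × ι × ι => p.1 ≠ p.2.1 ∧ R p.2.2 p.1 ∧ R p.2.2 p.2.1 ∧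
        x ∈ X p.1 ∧ x ∈ X p.2.1 ∧ x ∈ X p.2.2)).card =
      (univ.filter (fun p : ι × ι × ι => p.2.1 ≠ p.2.2 ∧ R p.1 p.2.1 ∧ R p.1 p.2.2 ∧
        x ∈ X p.1 ∧ x ∈ X p.2.1 ∧ x ∈ X p.2.2)).card := by
    intro x
    refine card_nbij' (fun p => (p.2.2, p.1, p.2.1)) (fun p => (p.2.1, p.2.2, p.1)) ?_ ?_ ?_ ?_
    · intro p hp
      obtain ⟨b1, b2, b3, b4, b5, b6⟩ := (mem_filter.1 (mem_coe.1 hp)).2
      exact mem_coe.2 (mem_filter.2 ⟨mem_univ _, b1, b2, b3, b6, b4, b5⟩)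
    · intro p hp
      obtain ⟨b1, b2, b3, b4, b5, b6⟩ := (mem_filter.1 (mem_coe.1 hp)).2
      exact mem_coe.2 (mem_filter.2 ⟨mem_univ _, b1, b2, b3, b5, b6, b4⟩)
    · intro p _; rfl
    · intro p _; rfl
  have a3 : ∀ x : α, (univ.filter (fun p : ι × ι × ι => p.2.1 ≠ p.2.2 ∧ R p.2.1 p.1 ∧ R p.2.2 p.1 ∧
        x ∈ X p.1 ∧ x ∈ X p.2.1 ∧ x ∈ X p.2.2)).card =
      (univ.filter (fun p : ι × ι × ι => p.1 ≠ p.2.1 ∧ R p.1 p.2.2 ∧ R p.2.1 p.2.2 ∧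
        x ∈ X p.1 ∧ x ∈ X p.2.1 ∧ x ∈ X p.2.2)).card := by
    intro x
    refine card_nbij' (fun p => (p.2.1, p.2.2, p.1)) (fun p => (p.2.2, p.1, p.2.1)) ?_ ?_ ?_ ?_
    · intro p hp
      obtain ⟨b1, b2, b3, b4, b5, b6⟩ := (mem_filter.1 (mem_coe.1 hp)).2
      exact mem_coe.2 (mem_filter.2 ⟨mem_univ _, b1, b2, b3, b5, b6, b4⟩)
    · intro p hp
      obtain ⟨b1, b2, b3, b4, b5, b6⟩ := (mem_filter.1 (mem_coe.1 hp)).2
      exact mem_coe.2 (mem_filter.2 ⟨mem_univ _, b1, b2, b3, b6, b4, b5⟩)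
    · intro p _; rfl
    · intro p _; rfl
  rw [sum_congr rfl (fun x _ => a1 x), sum_congr rfl (fun x _ => a2 x),
    sum_congr rfl (fun x _ => a3 x)] at h
  omega

end Pool.Agent.K4H58.XK
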